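import Pool.Agent.helper86.BK.Spec3

/-!
# Project bk: (MP_bb5cc8_nt): module SDW, sums-differences imply `WK`
-/

set_option autoImplicit false

namespace Pool.Agent.BK

theorem SDW_exp (β ε : ℝ) (hβ : 1 ≤ β) (hε : 0 < ε) :
    (1 / β - ε) * (β + ε / 4) ≤ 1 - 3 * ε / 4 := by
  have hβ0 : 0 < β := by linarith
  have h1 : 1 / β ≤ 1 := by
    rw [div_le_one hβ0]; exact hβ
  have h2 : 1 / β * β = 1 := by field_simp
  nlinarith [mul_pos hε hε, mul_nonneg (sub_nonneg.mpr h1) hε.le,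
    mul_nonneg (sub_nonneg.mpr hβ) hε.le]

theorem SDW_final (β ε C : ℝ) (hβ : 1 ≤ β) (hε : 0 < ε) (d b : ℕ) (hd : 1 ≤ d) (hb : 1 ≤ b)
    (h : (d : ℝ) ≤ C * (b : ℝ) ^ (β + ε / 4)) (hC : max C 1 < (d : ℝ) ^ (3 * ε / 4)) :
    (d : ℝ) ^ (1 / β - ε) ≤ b := by
  have hd1 : (1 : ℝ) ≤ d := by exact_mod_cast hd
  have hb1 : (1 : ℝ) ≤ b := by exact_mod_cast hb
  have hd0 : (0 : ℝ) < d := by linarith
  rcases le_or_gt (1 / β - ε) 0 with he | he
  · exact (Real.rpow_le_one_of_one_le_of_nonpos hd1 he).trans hb1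
  · by_contra hcon
    push Not at hcon
    have hpos : 0 ≤ β + ε / 4 := by linarith
    have h1 : (b : ℝ) ^ (β + ε / 4) ≤ ((d : ℝ) ^ (1 / β - ε)) ^ (β + ε / 4) :=
      Real.rpow_le_rpow (by positivity) hcon.le hpos
    rw [← Real.rpow_mul hd0.le] at h1
    have h2 : (d : ℝ) ^ ((1 / β - ε) * (β + ε / 4)) ≤ (d : ℝ) ^ (1 - 3 * ε / 4) :=
      Real.rpow_le_rpow_of_exponent_le hd1 (SDW_exp β ε hβ hε)
    have h3 : (d : ℝ) ≤ max C 1 * (d : ℝ) ^ (1 - 3 * ε / 4) := by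
      calc (d : ℝ) ≤ C * (b : ℝ) ^ (β + ε / 4) := h
        _ ≤ max C 1 * (b : ℝ) ^ (β + ε / 4) :=
            mul_le_mul_of_nonneg_right (le_max_left _ _) (by positivity)
        _ ≤ max C 1 * (d : ℝ) ^ (1 - 3 * ε / 4) :=
            mul_le_mul_of_nonneg_left (h1.trans h2) (by positivity)
    have h4 : max C 1 * (d : ℝ) ^ (1 - 3 * ε / 4) <
        (d : ℝ) ^ (3 * ε / 4) * (d : ℝ) ^ (1 - 3 * ε / 4) :=
      mul_lt_mul_of_pos_right hC (by positivity)
    rw [← Real.rpow_add hd0] at h4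
    have h5 : 3 * ε / 4 + (1 - 3 * ε / 4) = 1 := by ring
    rw [h5, Real.rpow_one] at h4
    linarith

/-- SDW. -/
theorem SDW : SDW_stmt := by
  intro β hβ hS ε hε
  obtain ⟨R, hR, C, hC⟩ := hS (ε / 4) (by linarith)
  set P : ℤ := ∏ r ∈ R, (r.1 + r.2) with hP
  set S : ℤ := ∑ r ∈ R, |r.1| * |P| with hSdef
  have hP0 : P ≠ 0 := by
    rw [hP, Finset.prod_ne_zero_iff]
    exact hR
  have hS0 : 0 ≤ S := Finset.sum_nonneg fun r _ => by positivity
  have hSle : ∀ r ∈ R, |r.1| * |P| ≤ S := fun r hr =>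
    Finset.single_le_sum (f := fun r : ℤ × ℤ => |r.1| * |P|) (fun r _ => by positivity) hr
  refine ⟨ε / 2, by linarith, by linarith, ?_⟩
  have ht1 : Filter.Tendsto (fun n : ℕ => (n : ℝ) ^ (ε / 2)) Filter.atTop Filter.atTop :=
    (tendsto_rpow_atTop (by linarith)).comp tendsto_natCast_atTop_atTop
  have ht2 : Filter.Tendsto (fun n : ℕ => (n : ℝ) ^ (3 * ε / 4)) Filter.atTop Filter.atTop :=
    (tendsto_rpow_atTop (by linarith)).comp tendsto_natCast_atTop_atTop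
  have hev := ((ht1.eventually_gt_atTop ((2 * S : ℤ) : ℝ)).and
    (ht2.eventually_gt_atTop (max C 1))).and (Filter.eventually_ge_atTop 1)
  obtain ⟨m₀, hm₀⟩ := Filter.eventually_atTop.mp hev
  refine ⟨m₀, fun D hD B hB => ?_⟩
  obtain ⟨⟨hm1, hm2⟩, hm3⟩ := hm₀ D.card hD
  have hc : (1 : ℝ) - (1 - 1 / β) - ε = 1 / β - ε := by ring
  rw [hc]
  choose! b hb using hB
  have hne : D.Nonempty := Finset.card_pos.mp (by omega)
  have hBne : 1 ≤ B.card := by
    obtain ⟨d, hd⟩ := hne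
    have h0 := hb d hd 0 (by
      have : (1 : ℝ) ≤ (D.card : ℝ) := by exact_mod_cast hm3
      have : (0 : ℝ) < (D.card : ℝ) ^ (ε / 2) := by positivity
      simpa using this)
    exact Finset.card_pos.mpr ⟨_, h0⟩
  set g : ℤ → ℤ × ℤ := fun d => (b d + (S + P) * d, b d + S * d) with hg
  set G : Finset (ℤ × ℤ) := D.image g with hG
  have hdiff : ∀ d, (g d).1 - (g d).2 = P * d := fun d => by
    simp only [hg]; ring
  have hinj : Set.InjOn g D := by
    intro x _ y _ hxy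
    have h1 := hdiff x
    rw [hxy, hdiff y] at h1
    exact (mul_left_cancel₀ hP0 h1).symm
  have hGcard : G.card = D.card := Finset.card_image_of_injOn hinj
  have hGinj : Set.InjOn (fun g : ℤ × ℤ => g.1 - g.2) G := by
    intro x hx y hy hxy
    rw [hG, Finset.coe_image] at hx hy
    obtain ⟨d, hd, rfl⟩ := hx
    obtain ⟨d', hd', rfl⟩ := hy
    have h1 : (g d).1 - (g d).2 = (g d').1 - (g d').2 := hxy
    rw [hdiff, hdiff] at h1
    rw [mul_left_cancel₀ hP0 h1]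
  have hval : ∀ r ∈ R, (G.image fun g => r.1 * g.1 + r.2 * g.2).card ≤ B.card := by
    intro r hr
    obtain ⟨q, hq⟩ : (r.1 + r.2) ∣ P := Finset.dvd_prod_of_mem (fun r : ℤ × ℤ => r.1 + r.2) hr
    have hr0 : r.1 + r.2 ≠ 0 := hR r hr
    have hqle : |q| ≤ |P| := by
      rw [hq, abs_mul]
      have : (1 : ℤ) ≤ |r.1 + r.2| := Int.one_le_abs hr0
      nlinarith [abs_nonneg q]
    have hk : |r.1 * q| ≤ S := by
      rw [abs_mul]
      exact (mul_le_mul_of_nonneg_left hqle (abs_nonneg _)).trans (hSle r hr)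
    obtain ⟨hk1, hk2⟩ := abs_le.mp hk
    obtain ⟨k, hkk⟩ : ∃ k : ℕ, (k : ℤ) = S + r.1 * q :=
      ⟨(S + r.1 * q).toNat, Int.toNat_of_nonneg (by linarith)⟩
    have hklt : (k : ℝ) < (D.card : ℝ) ^ (ε / 2) := by
      have h1 : (k : ℤ) ≤ 2 * S := by rw [hkk]; linarith
      have h2 : ((k : ℤ) : ℝ) ≤ ((2 * S : ℤ) : ℝ) := by exact_mod_cast h1
      have h3 : ((k : ℤ) : ℝ) = (k : ℝ) := by push_cast; rfl
      linarith
    have hsub : (G.image fun g => r.1 * g.1 + r.2 * g.2) ⊆ B.image fun x => (r.1 + r.2) * x := by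
      intro z hz
      rw [Finset.mem_image] at hz
      obtain ⟨y, hy, rfl⟩ := hz
      rw [hG, Finset.mem_image] at hy
      obtain ⟨d, hd, rfl⟩ := hy
      rw [Finset.mem_image]
      refine ⟨b d + k * d, hb d hd k hklt, ?_⟩
      rw [hkk]
      simp only [hg]
      rw [hq]
      ring
    exact (Finset.card_le_card hsub).trans Finset.card_image_le
  have hmain := hC G hGinj B.card hval
  rw [hGcard] at hmain
  exact SDW_final β ε C hβ hε D.card B.card hm3 hBne hmain hm2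

end Pool.Agent.BK
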